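import Pool.Agent.Lib.MP_cc0c1a_nt.Tri3.Occ

set_option autoImplicit false

/-!
# MP_cc0c1a_nt / Aed: holes and null sets, the hull of the support from inside (helper64)
-/

open MeasureTheory Filter Topology Metric
open Pool.Agent.Results.MP_cc0c1a_nt.SyndeticPositions (Config IsFin Shows F dig iter_F_dig
  fin_eq_dig)

namespace MPcc0Aed

open MPcc0Tri3

/-- A set of real numbers which has holes of proportional size at arbitrarily small scales around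
each of its points is a null set. -/
theorem null_of_holes (S : Set ℝ) (K : ℝ)
    (h : ∀ a ∈ S, ∀ δ : ℝ, 0 < δ → ∃ y r : ℝ, 0 < r ∧ r < δ ∧ |a - y| ≤ K * r ∧
      Disjoint S (closedBall y r)) : volume S = 0 := by
  have key : ∀ᵐ a ∂(volume.restrict S), a ∉ S := by
    filter_upwards [IsUnifLocDoublingMeasure.ae_tendsto_measure_inter_div
      (volume : Measure ℝ) S K] with a ha haS
    have h1 : ∀ k : ℕ, ∃ y r : ℝ, 0 < r ∧ r < 1 / ((k : ℝ) + 1) ∧ |a - y| ≤ K * r ∧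
        Disjoint S (closedBall y r) := fun k => h a haS _ (by positivity)
    choose y r hr hr1 hay hdis using h1
    have hlim : Tendsto r atTop (𝓝[>] 0) := by
      rw [tendsto_nhdsWithin_iff]
      refine ⟨?_, Eventually.of_forall fun k => hr k⟩
      exact squeeze_zero (fun k => (hr k).le) (fun k => (hr1 k).le)
        tendsto_one_div_add_atTop_nhds_zero_nat
    have h2 := ha y r hlim (Eventually.of_forall fun k => by
      rw [mem_closedBall, Real.dist_eq]; exact hay k)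
    have h3 : (fun k => volume (S ∩ closedBall (y k) (r k)) / volume (closedBall (y k) (r k))) =
        fun _ => (0 : ENNReal) := by
      funext k
      rw [Set.disjoint_iff_inter_eq_empty.1 (hdis k)]
      simp
    rw [h3] at h2
    exact zero_ne_one (tendsto_nhds_unique tendsto_const_nhds h2)
  have h4 : volume.restrict S {a | ¬ a ∉ S} = 0 := key
  have h5 : S ⊆ {a | ¬ a ∉ S} := fun a ha => by simpa using ha
  rw [Measure.restrict_apply_superset h5] at h4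
  exact h4

/-- A position with `6^j z ≥ 1` has a nonzero digit to its left. -/
lemma exists_left {z : ℝ} {j : ℤ} (h : 1 ≤ (6 : ℝ) ^ j * z) : ∃ i ≤ j, dig z i ≠ 0 := by
  have hz : 0 < z := by
    by_contra hcon
    push Not at hcon
    have : (6 : ℝ) ^ j * z ≤ 0 := mul_nonpos_of_nonneg_of_nonpos (by positivity) hcon
    linarith
  obtain ⟨n, hn1, hn2⟩ := exists_mem_Ico_zpow (y := (6 : ℝ)) hz (by norm_num)
  have h1 : 1 ≤ (6 : ℝ) ^ (-n) * z := by
    rw [zpow_neg, inv_mul_eq_div, one_le_div (by positivity)]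
    exact hn1
  have h2 : (6 : ℝ) ^ (-n) * z < 6 := by
    rw [zpow_neg, inv_mul_eq_div, div_lt_iff₀ (by positivity)]
    rw [zpow_add_one₀ (by norm_num : (6 : ℝ) ≠ 0)] at hn2
    linarith
  refine ⟨-n, ?_, ?_⟩
  · by_contra hcon
    push Not at hcon
    have h3 : (6 : ℝ) ^ j ≤ (6 : ℝ) ^ (-n - 1) := zpow_le_zpow_right₀ (by norm_num) (by omega)
    have h4 : (6 : ℝ) ^ j * z ≤ (6 : ℝ) ^ (-n - 1) * z := mul_le_mul_of_nonneg_right h3 hz.le
    rw [zpow_sub_one₀ (by norm_num : (6 : ℝ) ≠ 0)] at h4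
    have h5 : (6 : ℝ) ^ (-n) * 6⁻¹ * z = (6 : ℝ) ^ (-n) * z / 6 := by ring
    rw [h5] at h4
    linarith
  · intro h0
    have h3 : 1 ≤ ⌊(6 : ℝ) ^ (-n) * z⌋₊ := by
      rw [Nat.one_le_floor_iff]
      exact h1
    have h4 : ⌊(6 : ℝ) ^ (-n) * z⌋₊ < 6 := by
      rw [Nat.floor_lt (by positivity)]
      exact_mod_cast h2
    have h5 := congrArg Fin.val h0
    unfold dig at h5
    simp only at h5
    rw [Nat.mod_eq_of_lt h4] at h5
    have h6 : ⌊(6 : ℝ) ^ (-n) * z⌋₊ = 0 := h5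
    omega

/-- A position with `j + A ≤ n + r` has a nonzero digit of `A/6^r (3/2)^n` to its right. -/
lemma exists_right {A r n : ℕ} {j : ℤ} (hA : 0 < A) (hj : j + A ≤ (n : ℤ) + r) :
    ∃ i, j ≤ i ∧ dig ((A : ℝ) / 6 ^ r * (3 / 2) ^ n) i ≠ 0 := by
  by_contra hcon
  push Not at hcon
  set z : ℝ := (A : ℝ) / 6 ^ r * (3 / 2) ^ n with hz
  -- all numbers `6^i z` with `i ≥ j - 1` are natural numbers
  have h1 : ∀ k : ℕ, ∀ i : ℤ, j - 1 ≤ i → (n : ℤ) + r ≤ i + k → ∃ N : ℕ, (6 : ℝ) ^ i * z = N := by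
    intro k
    induction k with
    | zero =>
      intro i _ hi
      obtain ⟨t, ht⟩ : ∃ t : ℕ, i = t + r + n := ⟨(i - r - n).toNat, by omega⟩
      refine ⟨6 ^ t * A * 9 ^ n, ?_⟩
      rw [hz, ht]
      have h6 : (6 : ℝ) ^ ((t : ℤ) + r + n) = 6 ^ t * 6 ^ r * 6 ^ n := by
        rw [zpow_add₀ (by norm_num), zpow_add₀ (by norm_num)]
        simp
      rw [h6]
      have h9 : (9 : ℝ) ^ n = 6 ^ n * (3 / 2) ^ n := by rw [← mul_pow]; norm_num
      push_cast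
      rw [h9]
      field_simp
    | succ k ih =>
      intro i hi hik
      obtain ⟨N, hN⟩ := ih (i + 1) (by omega) (by push_cast at hik ⊢; omega)
      have h0 := hcon (i + 1) (by omega)
      have h2 := congrArg Fin.val h0
      unfold dig at h2
      simp only [hN, Nat.floor_natCast] at h2
      simp at h2
      obtain ⟨K, hK⟩ := Nat.dvd_of_mod_eq_zero (by simpa using h2 : N % 6 = 0)
      refine ⟨K, ?_⟩
      have h3 : (6 : ℝ) ^ (i + 1) * z = 6 * ((6 : ℝ) ^ i * z) := by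
        rw [zpow_add_one₀ (by norm_num : (6 : ℝ) ≠ 0)]
        ring
      rw [h3, hK] at hN
      push_cast at hN
      linarith
  obtain ⟨K, hK⟩ := h1 ((n : ℤ) + r - (j - 1)).toNat (j - 1) le_rfl (by omega)
  -- compare the powers of two
  obtain ⟨s, hs⟩ : ∃ s : ℕ, (s : ℤ) = n + r + 1 - j := ⟨(n + r + 1 - j : ℤ).toNat, by omega⟩
  have hs1 : A + 1 ≤ s := by omega
  have key : ∃ e f : ℕ, A * 3 ^ f = K * 2 ^ s * 3 ^ e := by
    obtain ⟨e, he⟩ : ∃ e : ℕ, 0 ≤ (n : ℤ) + j - 1 - r + e :=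
      ⟨((r : ℤ) + 1 - j - n).toNat, by omega⟩
    obtain ⟨f, hf⟩ : ∃ f : ℕ, (f : ℤ) = n + j - 1 - r + e :=
      ⟨((n : ℤ) + j - 1 - r + e).toNat, by omega⟩
    refine ⟨e, f, ?_⟩
    have h6 : (6 : ℝ) ^ (j - 1) = 3 ^ (j - 1) * 2 ^ (j - 1) := by rw [← mul_zpow]; norm_num
    have h6' : (6 : ℝ) ^ r = 3 ^ (r : ℤ) * 2 ^ (r : ℤ) := by
      rw [zpow_natCast, zpow_natCast, ← mul_pow]; norm_num
    have h32 : (3 / 2 : ℝ) ^ n = 3 ^ (n : ℤ) / 2 ^ (n : ℤ) := by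
      rw [zpow_natCast, zpow_natCast, div_pow]
    have e1 : (3 : ℝ) ^ f = 3 ^ (n : ℤ) * 3 ^ (j - 1) / 3 ^ (r : ℤ) * 3 ^ (e : ℤ) := by
      rw [← zpow_natCast (3 : ℝ) f, hf, ← zpow_add₀ (by norm_num : (3 : ℝ) ≠ 0),
        ← zpow_sub₀ (by norm_num : (3 : ℝ) ≠ 0), ← zpow_add₀ (by norm_num : (3 : ℝ) ≠ 0)]
      congr 1
      ring
    have e2 : (2 : ℝ) ^ s = 2 ^ (n : ℤ) * 2 ^ (r : ℤ) / 2 ^ (j - 1) := by
      rw [← zpow_natCast (2 : ℝ) s, hs, ← zpow_add₀ (by norm_num : (2 : ℝ) ≠ 0),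
        ← zpow_sub₀ (by norm_num : (2 : ℝ) ≠ 0)]
      congr 1
      ring
    have hR : (A : ℝ) * 3 ^ f = K * 2 ^ s * 3 ^ e := by
      rw [e1, e2, ← hK, hz, h6, h6', h32, ← zpow_natCast (3 : ℝ) e]
      have a1 : (3 : ℝ) ^ (r : ℤ) ≠ 0 := by positivity
      have a2 : (2 : ℝ) ^ (r : ℤ) ≠ 0 := by positivity
      have a3 : (2 : ℝ) ^ (n : ℤ) ≠ 0 := by positivity
      have a4 : (2 : ℝ) ^ (j - 1) ≠ 0 := by positivity
      field_simp
    exact_mod_cast hR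
  obtain ⟨e, f, hef⟩ := key
  have h2 : 2 ^ s ∣ A * 3 ^ f := ⟨K * 3 ^ e, by rw [hef]; ring⟩
  have h3 : Nat.Coprime (2 ^ s) (3 ^ f) := Nat.Coprime.pow _ _ (by norm_num)
  have h4 : 2 ^ s ∣ A := h3.dvd_of_dvd_mul_right h2
  have h5 := Nat.le_of_dvd hA h4
  have h6 : s < 2 ^ s := Nat.lt_two_pow_self
  omega

/-- Positions well inside the hull. -/
lemma inside_of {A r n : ℕ} {j : ℤ} (hA : 0 < A)
    (h : 1 ≤ (6 : ℝ) ^ j * ((A : ℝ) / 6 ^ r * (3 / 2) ^ n)) (hj : j + A ≤ (n : ℤ) + r) :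
    Inside (dig ((A : ℝ) / 6 ^ r)) n j := by
  unfold Inside
  rw [iter_F_dig]
  exact ⟨exists_left h, exists_right hA hj⟩

end MPcc0Aed
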