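import Pool.Agent.Lib.MP_cc0c1a_nt.Aed.Base
import Pool.Agent.Lib.MP_cc0c1a_nt.Tri3.Final4

set_option autoImplicit false

/-!
# MP_cc0c1a_nt / Aed: almost every curve (helper64)
-/

open MeasureTheory Filter Topology Metric
open Pool.Agent.Results.MP_cc0c1a_nt.SyndeticPositions (Config IsFin Shows F dig iter_F_dig
  fin_eq_dig)

namespace MPcc0Aed

open MPcc0Tri3

lemma lip (c : ℕ → ℝ) (N₀ : ℕ) (hstep : ∀ n, N₀ ≤ n → |c (n + 1) - c n| ≤ 1) (n k : ℕ)
    (hn : N₀ ≤ n) : |c (n + k) - c n| ≤ k := by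
  induction k with
  | zero => simp
  | succ k ih =>
    have h1 := hstep (n + k) (by omega)
    have h2 : c (n + (k + 1)) - c n = (c (n + k + 1) - c (n + k)) + (c (n + k) - c n) := by
      rw [← add_assoc]; ring
    rw [h2]
    push_cast
    refine (abs_add_le _ _).trans ?_
    linarith

lemma lip' (c : ℕ → ℝ) (N₀ : ℕ) (hstep : ∀ n, N₀ ≤ n → |c (n + 1) - c n| ≤ 1) (m n H : ℕ)
    (hm : N₀ ≤ m) (hn : N₀ ≤ n) (h : |(m : ℤ) - n| ≤ H) : |c m - c n| ≤ H := by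
  rw [abs_le] at h
  rcases le_total m n with hmn | hmn
  · obtain ⟨k, rfl⟩ := Nat.exists_eq_add_of_le hmn
    have := lip c N₀ hstep m k hm
    rw [abs_sub_comm]
    refine this.trans ?_
    have : k ≤ H := by push_cast at h; omega
    exact_mod_cast this
  · obtain ⟨k, rfl⟩ := Nat.exists_eq_add_of_le hmn
    have := lip c N₀ hstep n k hn
    refine this.trans ?_
    have : k ≤ H := by push_cast at h; omega
    exact_mod_cast this

lemma floor_step {u v : ℝ} (h : |u - v| ≤ 1) : |⌊u⌋ - ⌊v⌋| ≤ 1 := by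
  rw [abs_le] at h ⊢
  have h1 := Int.floor_le u
  have h2 := Int.lt_floor_add_one u
  have h3 := Int.floor_le v
  have h4 := Int.lt_floor_add_one v
  constructor
  · have : (⌊v⌋ : ℝ) < ⌊u⌋ + 1 + 1 := by linarith
    have : ⌊v⌋ < ⌊u⌋ + 1 + 1 := by exact_mod_cast this
    omega
  · have : (⌊u⌋ : ℝ) < ⌊v⌋ + 1 + 1 := by linarith
    have : ⌊u⌋ < ⌊v⌋ + 1 + 1 := by exact_mod_cast this
    omega

/-- Positions in the open cone are inside the support for all large times. -/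
lemma eventually_inside {A : ℕ} (r : ℕ) (hA : 0 < A) {ε : ℝ} (hε : 0 < ε) :
    ∀ᶠ N : ℕ in atTop, ∀ c : ℝ, (-(Real.logb 6 (3 / 2)) + ε) * N ≤ c → c ≤ (1 - ε) * N →
      Inside (dig ((A : ℝ) / 6 ^ r)) N ⌊c⌋ := by
  have hgrow : 1 < (6 : ℝ) ^ ε := Real.one_lt_rpow (by norm_num) hε
  have hC : 0 < (6 : ℝ)⁻¹ * ((A : ℝ) / 6 ^ r) := by
    have : (0 : ℝ) < A := by exact_mod_cast hA
    positivity
  have hlim : Tendsto (fun N : ℕ => ((6 : ℝ) ^ ε) ^ N * ((6 : ℝ)⁻¹ * ((A : ℝ) / 6 ^ r)))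
      atTop atTop := (tendsto_pow_atTop_atTop_of_one_lt hgrow).atTop_mul_const hC
  have hlim2 : Tendsto (fun N : ℕ => (N : ℝ) * ε) atTop atTop :=
    tendsto_natCast_atTop_atTop.atTop_mul_const hε
  filter_upwards [hlim.eventually_ge_atTop 1, hlim2.eventually_ge_atTop (A : ℝ)]
    with N hN1 hN2 c hc1 hc2
  apply inside_of hA
  · refine hN1.trans ?_
    have h1 : (-(Real.logb 6 (3 / 2)) + ε) * N - 1 ≤ (⌊c⌋ : ℝ) := by
      have h2 := Int.lt_floor_add_one c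
      linarith
    have h5 : (6 : ℝ) ^ ((-(Real.logb 6 (3 / 2)) + ε) * N - 1) ≤ (6 : ℝ) ^ ⌊c⌋ := by
      rw [← Real.rpow_intCast]
      exact Real.rpow_le_rpow_of_exponent_le (by norm_num) h1
    have h6 : (6 : ℝ) ^ ((-(Real.logb 6 (3 / 2)) + ε) * N - 1) =
        (3 / 2)⁻¹ ^ N * ((6 : ℝ) ^ ε) ^ N * 6⁻¹ := by
      have e1 : (6 : ℝ) ^ (-(Real.logb 6 (3 / 2))) = (3 / 2)⁻¹ := by
        rw [Real.rpow_neg (by norm_num), Real.rpow_logb (by norm_num) (by norm_num) (by norm_num)]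
      rw [← e1, ← Real.rpow_natCast, ← Real.rpow_natCast, ← Real.rpow_mul (by norm_num),
        ← Real.rpow_mul (by norm_num), ← Real.rpow_neg_one (6 : ℝ),
        ← Real.rpow_add (by norm_num), ← Real.rpow_add (by norm_num)]
      congr 1
      ring
    have h7 : ((6 : ℝ) ^ ε) ^ N * ((6 : ℝ)⁻¹ * ((A : ℝ) / 6 ^ r)) =
        (6 : ℝ) ^ ((-(Real.logb 6 (3 / 2)) + ε) * N - 1) * ((A : ℝ) / 6 ^ r * (3 / 2) ^ N) := by
      rw [h6, inv_pow]
      field_simp
    rw [h7]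
    exact mul_le_mul_of_nonneg_right h5 (by positivity)
  · have h1 := Int.floor_le c
    have h4 : (⌊c⌋ : ℝ) + A ≤ N + r := by
      have : (0 : ℝ) ≤ r := by positivity
      nlinarith
    exact_mod_cast h4

/-- The admissible parameters: the curve `n ↦ h(n) + a g(n)` is eventually `1`-Lipschitz and is
infinitely often well inside the cone of the support. -/
def Adm (h g : ℕ → ℝ) (a : ℝ) : Prop :=
  (∀ᶠ n : ℕ in atTop, |(h (n + 1) + a * g (n + 1)) - (h n + a * g n)| ≤ 1) ∧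
    ∃ ε : ℝ, 0 < ε ∧ ∃ᶠ n : ℕ in atTop,
      (-(Real.logb 6 (3 / 2)) + ε) * n ≤ h n + a * g n ∧ h n + a * g n ≤ (1 - ε) * n

/-- The parameters for which the word `w` is not shown from the time `M` on. -/
def Bad (h g : ℕ → ℝ) (x : Config) {ℓ : ℕ} (w : Fin ℓ → Fin 6) (o : ℤ) (M : ℕ) : Set ℝ :=
  {a | Adm h g a ∧ ∀ n, M ≤ n → ¬ Shows (F^[n] x) (⌊h n + a * g n⌋ + o) w}

/-- Holes near every exceptional parameter. -/
theorem holes (ℓ : ℕ) : ∃ C : ℝ, ∀ (h g : ℕ → ℝ), Tendsto g atTop atTop → ∀ (x : Config),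
    IsFin x → x ≠ 0 → ∀ (w : Fin ℓ → Fin 6) (o : ℤ) (M : ℕ), ∀ a ∈ Bad h g x w o M,
      ∀ δ : ℝ, 0 < δ → ∃ y s : ℝ, 0 < s ∧ s < δ ∧ |a - y| ≤ (C + 4 * |(o : ℝ)|) * s ∧
        Disjoint (Bad h g x w o M) (closedBall y s) := by
  obtain ⟨c, hc, H₀, hR⟩ := final_rich ℓ 1 one_pos
  set H : ℕ := H₀ + 1 with hH
  refine ⟨4 * (2 * H + 2), ?_⟩
  intro h g hg x hfin hx0 w o M a ha δ hδ
  obtain ⟨⟨hlip, ε, hε, hfreq⟩, hbad⟩ := ha
  have hin : ∀ᶠ N : ℕ in atTop, ∀ c : ℝ, (-(Real.logb 6 (3 / 2)) + ε) * N ≤ c →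
      c ≤ (1 - ε) * N → Inside x N ⌊c⌋ := by
    obtain ⟨A, r, hx⟩ := fin_eq_dig hfin
    have hA : 0 < A := by
      rcases Nat.eq_zero_or_pos A with h0 | h0
      · exfalso
        apply hx0
        rw [hx, h0]
        funext i
        apply Fin.ext
        unfold dig
        simp
      · exact h0
    rw [hx]
    exact eventually_inside (A := A) r hA hε
  obtain ⟨N₀, hN₀⟩ := hR x hfin hx0 1 one_pos
  obtain ⟨N₁, hN₁⟩ := eventually_atTop.1 hlip
  obtain ⟨N₂, hN₂⟩ := eventually_atTop.1 (hg.eventually_ge_atTop (1 / δ + 1))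
  obtain ⟨N, ⟨hNc1, hNc2⟩, hNin, hNbig⟩ := (hfreq.and_eventually
    (hin.and (eventually_ge_atTop (N₀ + N₁ + N₂ + M + 5 * H)))).exists
  set cc : ℕ → ℝ := fun n => h n + a * g n with hcc
  set q : ℕ → ℕ × ℤ := fun t => (N + t, ⌊cc (N + t)⌋) with hq
  have hins : Inside x (q 0).1 (q 0).2 := by
    have := hNin (cc N) hNc1 hNc2
    simpa [hq] using this
  obtain ⟨t, htN, hrich⟩ := hN₀ N q (by simp only [hq]; omega) (by
    intro t _
    refine ⟨?_, ?_⟩
    · simp only [hq]; push_cast; rw [abs_le]; constructor <;> omega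
    · simp only [hq]
      apply floor_step
      exact hN₁ (N + t) (by omega)) hins (by
    right; left
    simp only [hq]
    push_cast
    rw [abs_of_nonneg] <;> linarith [(Nat.cast_nonneg N : (0 : ℝ) ≤ N)])
  obtain ⟨S, hS, hSp⟩ := hrich H (by omega) (by simp only [hq]; omega) w
  have hScard : 0 < S.card := by
    have h1 : (0 : ℝ) < c * (H : ℝ) ^ ((2 : ℝ) - 1) := by
      have : (0 : ℝ) < H := by rw [hH]; positivity
      positivity
    exact_mod_cast lt_of_lt_of_le h1 hS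
  obtain ⟨⟨n', j'⟩, hp⟩ := Finset.card_pos.1 hScard
  obtain ⟨hn', hj', hsh⟩ := hSp _ hp
  simp only [hq] at hn' hj' hsh
  have hn'' : N ≤ n' + H := by
    rw [abs_le] at hn'
    push_cast at hn'
    omega
  have hG1 : 1 / δ + 1 ≤ g n' := hN₂ n' (by omega)
  have hδ' : 0 < 1 / δ := by positivity
  have hG : 0 < g n' := by linarith
  have hdist : |cc n' - j'| ≤ 2 * H + 1 := by
    have h1 := lip' cc N₁ hN₁ n' (N + t) H (by omega) (by omega) hn'
    have h2 : |(⌊cc (N + t)⌋ : ℝ) - j'| ≤ H := by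
      rw [abs_sub_comm]
      exact_mod_cast hj'
    have h3 := Int.floor_le (cc (N + t))
    have h4 := Int.lt_floor_add_one (cc (N + t))
    rw [abs_le] at h1 h2 ⊢
    constructor <;> linarith [h1.1, h1.2, h2.1, h2.2]
  refine ⟨(j' - o + 1 / 2 - h n') / g n', 1 / (4 * g n'), by positivity, ?_, ?_, ?_⟩
  · rw [div_lt_iff₀ (by positivity)]
    have : 1 < δ * g n' := by
      have h1 : δ * (1 / δ + 1) ≤ δ * g n' := mul_le_mul_of_nonneg_left hG1 hδ.le
      have h2 : δ * (1 / δ + 1) = 1 + δ := by field_simp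
      linarith
    linarith
  · have h1 : a - (j' - o + 1 / 2 - h n') / g n' = (cc n' - j' + o - 1 / 2) / g n' := by
      simp only [hcc]
      field_simp
      ring
    rw [h1, abs_div, abs_of_pos hG, div_le_iff₀ hG]
    have h2 : (4 * (2 * (H : ℝ) + 2) + 4 * |(o : ℝ)|) * (1 / (4 * g n')) * g n' =
        2 * H + 2 + |(o : ℝ)| := by field_simp
    rw [h2]
    have h3 : |cc n' - j' + o - 1 / 2| ≤ |cc n' - j'| + |(o : ℝ)| + 1 / 2 := by
      rw [abs_le]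
      have h4 := neg_abs_le (cc n' - j')
      have h5 := le_abs_self (cc n' - j')
      have h6 := neg_abs_le (o : ℝ)
      have h7 := le_abs_self (o : ℝ)
      constructor <;> linarith
    linarith
  · rw [Set.disjoint_left]
    rintro b ⟨_, hb⟩ hball
    refine hb n' (by omega) ?_
    rw [mem_closedBall, Real.dist_eq, abs_le] at hball
    have h1 : (j' - o : ℝ) ≤ h n' + b * g n' := by
      have h2 : (j' - o + 1 / 2 - h n') / g n' - 1 / (4 * g n') ≤ b := by linarith [hball.1]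
      have h3 := mul_le_mul_of_nonneg_right h2 hG.le
      have h4 : ((j' - o + 1 / 2 - h n') / g n' - 1 / (4 * g n')) * g n' =
          j' - o + 1 / 4 - h n' := by
        field_simp
        ring
      linarith
    have h1' : h n' + b * g n' < (j' - o : ℝ) + 1 := by
      have h2 : b ≤ (j' - o + 1 / 2 - h n') / g n' + 1 / (4 * g n') := by linarith [hball.2]
      have h3 := mul_le_mul_of_nonneg_right h2 hG.le
      have h4 : ((j' - o + 1 / 2 - h n') / g n' + 1 / (4 * g n')) * g n' =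
          j' - o + 3 / 4 - h n' := by
        field_simp
        ring
      linarith
    have h5 : ⌊h n' + b * g n'⌋ = j' - o := by
      rw [Int.floor_eq_iff]
      push_cast
      exact ⟨h1, h1'⟩
    rw [h5]
    simpa using hsh

/-- Around each of its points the set has, at arbitrarily small scales, holes of proportional
size. -/
def Porous (S : Set ℝ) : Prop :=
  ∃ K : ℝ, ∀ a ∈ S, ∀ δ : ℝ, 0 < δ → ∃ y s : ℝ, 0 < s ∧ s < δ ∧ |a - y| ≤ K * s ∧
    Disjoint S (closedBall y s)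

/-- A countable union of porous sets contains `S`. -/
def SigmaPorous (S : Set ℝ) : Prop :=
  ∃ T : ℕ → Set ℝ, (∀ k, Porous (T k)) ∧ S ⊆ ⋃ k, T k

lemma SigmaPorous.null {S : Set ℝ} (h : SigmaPorous S) : volume S = 0 := by
  obtain ⟨T, hT, hS⟩ := h
  refine measure_mono_null hS (measure_iUnion_null fun k => ?_)
  obtain ⟨K, hK⟩ := hT k
  exact null_of_holes _ K hK

/-- The configuration `F^n(x)` seen from the position `j`. -/
def seen (x : Config) (n : ℕ) (j : ℤ) : Config := fun i => F^[n] x (j + i)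

/-- A sequence of configurations which shows all words around the origin is dense. -/
lemma dense_of_words (z : ℕ → Config)
    (h : ∀ (L : ℕ) (w : Fin (2 * L + 1) → Fin 6), ∃ n, Shows (z n) (-(L : ℤ)) w) :
    Dense (Set.range z) := by
  rw [dense_iff_inter_open]
  intro U hU hne
  obtain ⟨y, hy⟩ := hne
  obtain ⟨I, u, hu, hI⟩ := isOpen_pi_iff.1 hU y hy
  obtain ⟨L, hL⟩ : ∃ L : ℕ, ∀ i ∈ I, |i| ≤ L := by
    refine ⟨I.sup fun i => i.natAbs, fun i hi => ?_⟩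
    have := Finset.le_sup (f := fun i : ℤ => i.natAbs) hi
    have h2 : (i.natAbs : ℤ) ≤ ((I.sup fun i => i.natAbs : ℕ) : ℤ) := by exact_mod_cast this
    rwa [Int.natCast_natAbs] at h2
  obtain ⟨n, hn⟩ := h L (fun k => y ((k : ℤ) - L))
  refine ⟨z n, hI ?_, ⟨n, rfl⟩⟩
  intro i hi
  have h1 := hL i hi
  rw [abs_le] at h1
  have h2 := hn ⟨(i + L).toNat, by omega⟩
  have h3 : (((i + L).toNat : ℕ) : ℤ) = i + L := Int.toNat_of_nonneg (by omega)
  simp only [h3] at h2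
  have h4 : -(L : ℤ) + (i + L) = i := by ring
  have h5 : i + (L : ℤ) - L = i := by ring
  rw [h4, h5] at h2
  rw [h2]
  exact (hu i hi).2

/-- Almost every curve. -/
theorem main (h g : ℕ → ℝ) (hg : Tendsto g atTop atTop) :
    SigmaPorous {a : ℝ | Adm h g a ∧ ¬ ∀ x : Config, IsFin x → x ≠ 0 →
      Dense (Set.range fun n : ℕ => seen x n ⌊h n + a * g n⌋)} := by
  -- enumerate all data
  let D : Type := (ℕ × ℕ) × (Σ L : ℕ, Fin (2 * L + 1) → Fin 6) × ℕ
  let B : D → Set ℝ := fun d => {a | (dig ((d.1.1 : ℝ) / 6 ^ d.1.2) ≠ 0 ∧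
    IsFin (dig ((d.1.1 : ℝ) / 6 ^ d.1.2))) ∧
    a ∈ Bad h g (dig ((d.1.1 : ℝ) / 6 ^ d.1.2)) d.2.1.2 (-(d.2.1.1 : ℤ)) d.2.2}
  have hB : ∀ d, Porous (B d) := by
    intro d
    by_cases hd : dig ((d.1.1 : ℝ) / 6 ^ d.1.2) ≠ 0 ∧ IsFin (dig ((d.1.1 : ℝ) / 6 ^ d.1.2))
    · obtain ⟨C, hC⟩ := holes (2 * d.2.1.1 + 1)
      refine ⟨C + 4 * |((-(d.2.1.1 : ℤ) : ℤ) : ℝ)|, fun a ha δ hδ => ?_⟩
      obtain ⟨y, s, h1, h2, h3, h4⟩ := hC h g hg _ hd.2 hd.1 d.2.1.2 (-(d.2.1.1 : ℤ)) d.2.2 a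
        ha.2 δ hδ
      exact ⟨y, s, h1, h2, h3, h4.mono_left fun b hb => hb.2⟩
    · exact ⟨0, fun a ha => absurd ha.1 hd⟩
  obtain ⟨e, he⟩ := exists_surjective_nat D
  refine ⟨fun k => B (e k), fun k => hB _, ?_⟩
  rintro a ⟨hadm, hnot⟩
  push Not at hnot
  obtain ⟨x, hx, hx0, hnd⟩ := hnot
  have h1 : ¬ ∀ (L : ℕ) (w : Fin (2 * L + 1) → Fin 6),
      ∃ n, Shows (seen x n ⌊h n + a * g n⌋) (-(L : ℤ)) w := fun hcon =>
    hnd (dense_of_words _ hcon)
  push Not at h1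
  obtain ⟨L, w, hw⟩ := h1
  obtain ⟨A, r, hAr⟩ := fin_eq_dig hx
  obtain ⟨k, hk⟩ := he ((A, r), ⟨L, w⟩, 0)
  refine Set.mem_iUnion.2 ⟨k, ?_⟩
  simp only [hk]
  refine ⟨⟨?_, ?_⟩, hadm, ?_⟩
  · rw [← hAr]; exact hx0
  · rw [← hAr]; exact hx
  · intro n _ hsh
    apply hw n
    rw [← hAr] at hsh
    intro i
    have h2 : F^[n] x (⌊h n + a * g n⌋ + -(L : ℤ) + i) = w i := hsh i
    unfold seen
    rw [← h2, add_assoc]

end MPcc0Aed
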